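import Pool.Agent.Helper73.SM.Goals

/-!
# Project SM (MP_c307ca_nt), packet IRR
-/

set_option autoImplicit false

namespace Pool.Agent.Helper17.SM

open Pool.Agent.Helper73.SM

theorem goalIRR : StmtIRR := by
  intro k N hk hN
  have hN0 : (0 : ℝ) < N := by exact_mod_cast hN
  set ξ : ℝ := (1 + 1 / (N : ℝ)) ^ (1 / (k : ℝ)) with hξ
  have hk0 : (k : ℝ) ≠ 0 := by positivity
  have hb : (0 : ℝ) ≤ 1 + 1 / (N : ℝ) := by positivity
  have hξk : ξ ^ k = 1 + 1 / (N : ℝ) := by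
    rw [hξ, ← Real.rpow_natCast, ← Real.rpow_mul hb, one_div_mul_cancel hk0, Real.rpow_one]
  have hξ0 : 0 < ξ := by positivity
  have hζ : ((N : ℝ) * ξ) ^ k = ((N ^ (k - 1) * (N + 1) : ℤ) : ℝ) := by
    obtain ⟨m, rfl⟩ : ∃ m, k = m + 1 := ⟨k - 1, by omega⟩
    rw [mul_pow, hξk, Nat.add_sub_cancel]
    push_cast
    rw [pow_succ]
    field_simp
  have hirr : Irrational ((N : ℝ) * ξ) := by
    refine irrational_nrt_of_notint_nrt k _ hζ ?_ (by omega)
    rintro ⟨y, hy⟩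
    have hy0 : (0 : ℝ) < y := by rw [← hy]; positivity
    have h1 : (N : ℝ) ^ k < (y : ℝ) ^ k := by
      rw [← hy, mul_pow, hξk]
      have : (0 : ℝ) < (N : ℝ) ^ k := by positivity
      have h2 : (0 : ℝ) < 1 / (N : ℝ) := by positivity
      nlinarith
    have h2 : (y : ℝ) ^ k < ((N : ℝ) + 1) ^ k := by
      rw [← hy, hζ]
      obtain ⟨m, rfl⟩ : ∃ m, k = m + 1 := ⟨k - 1, by omega⟩
      push_cast
      rw [pow_succ]
      apply mul_lt_mul_of_pos_right _ (by positivity)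
      exact pow_lt_pow_left₀ (by linarith) hN0.le (by omega)
    have h3 : (N : ℝ) < y := lt_of_pow_lt_pow_left₀ k hy0.le h1
    have h4 : (y : ℝ) < (N : ℝ) + 1 := lt_of_pow_lt_pow_left₀ k (by positivity) h2
    have h5 : (N : ℤ) < y := by exact_mod_cast h3
    have h6 : y < (N : ℤ) + 1 := by exact_mod_cast h4
    omega
  intro hrat
  apply hirr
  obtain ⟨q, hq⟩ := hrat
  exact ⟨N * q, by rw [← hq]; push_cast; ring⟩

end Pool.Agent.Helper17.SM
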