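import Pool.Agent.Helper73.SM.GoalsK

/-!
# Project KR (MP_c307ca_nt), packet KPK: the primes dividing `k`.
-/

set_option autoImplicit false

namespace Pool.Agent.Helper17.SM

open Finset Pool.Agent.Helper73.SM

section
variable {p : ℕ} [hp : Fact p.Prime]

theorem pvi_pow {a : ℤ} (ha : a ≠ 0) (j : ℕ) :
    padicValInt p (a ^ j) = j * padicValInt p a := by
  induction j with
  | zero => simp
  | succ j ih => rw [pow_succ, padicValInt.mul (pow_ne_zero j ha) ha, ih]; ring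

/-- The factors are prime to `p`. -/
theorem fac_ndvd {k : ℕ} {s : ℤ} (hpk : p ∣ k) (hs : ¬ (p : ℤ) ∣ s) (n i : ℕ) :
    ¬ (p : ℤ) ∣ ((k : ℤ) * (n : ℤ) + s - (k : ℤ) * (i : ℤ)) := by
  intro h
  apply hs
  have hk : (p : ℤ) ∣ (k : ℤ) := by exact_mod_cast hpk
  have h2 : s = ((k : ℤ) * (n : ℤ) + s - (k : ℤ) * (i : ℤ)) - (k : ℤ) * ((n : ℤ) - (i : ℤ)) := by ring
  rw [h2]
  exact dvd_sub h (Dvd.dvd.mul_right hk _)

theorem val_prod {k : ℕ} {s : ℤ} (hpk : p ∣ k) (hs : ¬ (p : ℤ) ∣ s) (n j : ℕ) :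
    (∏ i ∈ range j, ((k : ℤ) * (n : ℤ) + s - (k : ℤ) * (i : ℤ))) ≠ 0 ∧
    padicValInt p (∏ i ∈ range j, ((k : ℤ) * (n : ℤ) + s - (k : ℤ) * (i : ℤ))) = 0 := by
  have hpr : Prime (p : ℤ) := Nat.prime_iff_prime_int.1 hp.out
  have h : ¬ (p : ℤ) ∣ ∏ i ∈ range j, ((k : ℤ) * (n : ℤ) + s - (k : ℤ) * (i : ℤ)) := by
    intro h
    obtain ⟨i, _, hi⟩ := (hpr.dvd_finset_prod_iff _).1 h
    exact fac_ndvd hpk hs n i hi
  exact ⟨fun h0 => h (h0 ▸ dvd_zero _), padicValInt.eq_zero_of_not_dvd h⟩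

theorem ck_val (hKCZ : StmtKCZ) {k : ℕ} {s : ℤ} (hk : k ≠ 0) (hpk : p ∣ k) (hs : ¬ (p : ℤ) ∣ s)
    (n j : ℕ) : ck k s n j ≠ 0 ∧
      padicValInt p (ck k s n j) + padicValNat p j.factorial = j * padicValNat p k := by
  obtain ⟨h1, h2⟩ := val_prod (p := p) hpk hs n j
  have h3 := hKCZ.mul k s n j
  have hkz : (k : ℤ) ≠ 0 := by exact_mod_cast hk
  have h4 : ck k s n j ≠ 0 := by
    intro h0
    rw [h0, zero_mul] at h3
    exact mul_ne_zero (pow_ne_zero j hkz) h1 h3.symm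
  refine ⟨h4, ?_⟩
  have hf : ((j.factorial : ℕ) : ℤ) ≠ 0 := by exact_mod_cast j.factorial_ne_zero
  have h5 := congrArg (padicValInt p) h3
  rw [padicValInt.mul h4 hf, padicValInt.mul (pow_ne_zero j hkz) h1, h2, add_zero, pvi_pow hkz,
    padicValInt.of_nat, padicValInt.of_nat] at h5
  exact h5

theorem fact_val_mono {i j : ℕ} (h : i ≤ j) :
    padicValNat p i.factorial ≤ padicValNat p j.factorial := by
  have h1 : p ^ padicValNat p i.factorial ∣ j.factorial :=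
    pow_padicValNat_dvd.trans (Nat.factorial_dvd_factorial h)
  exact (padicValNat_dvd_iff_le j.factorial_ne_zero).1 h1

theorem pow_dvd_PK (hKCZ : StmtKCZ) {k : ℕ} {s : ℤ} (hk : k ≠ 0) (hpk : p ∣ k)
    (hs : ¬ (p : ℤ) ∣ s) (n : ℕ) (N : ℤ) :
    (p : ℤ) ^ (n * padicValNat p k - padicValNat p n.factorial) ∣ PK k s n N := by
  unfold PK
  apply Finset.dvd_sum
  intro j hj
  rw [Finset.mem_range] at hj
  obtain ⟨h1, h2⟩ := ck_val (p := p) hKCZ hk hpk hs n j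
  have h3 : (p : ℤ) ^ padicValInt p (ck k s n j) ∣ ck k s n j := padicValInt_dvd _
  have h4 : (p : ℤ) ^ ((n - j) * padicValNat p k) ∣ ((k : ℤ) ^ 2 * N) ^ (n - j) := by
    rw [mul_comm, pow_mul]
    apply pow_dvd_pow_of_dvd
    have h5 : (p : ℤ) ^ padicValNat p k ∣ (k : ℤ) := by
      have := (pow_padicValNat_dvd : p ^ padicValNat p k ∣ k)
      exact_mod_cast this
    exact (h5.trans (dvd_pow_self _ (by norm_num))).mul_right _
  have h6 : (p : ℤ) ^ (padicValInt p (ck k s n j) + (n - j) * padicValNat p k) ∣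
      ck k s n j * ((2 * n - j).choose n : ℤ) * ((k : ℤ) ^ 2 * N) ^ (n - j) := by
    rw [pow_add]
    exact mul_dvd_mul (h3.mul_right _) h4
  refine (pow_dvd_pow _ ?_).trans h6
  have h7 := fact_val_mono (p := p) (show j ≤ n by omega)
  have h8 : n * padicValNat p k = j * padicValNat p k + (n - j) * padicValNat p k := by
    rw [← Nat.add_mul]
    congr 1
    omega
  omega

end

theorem goalKPK (hKCZ : StmtKCZ) (hKDT : StmtKDT) : StmtKPK := by
  intro k m n p N hOk hp hpk hN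
  haveI : Fact p.Prime := ⟨hp⟩
  obtain ⟨hk3, hm1, hmk, hcop⟩ := hOk
  have hk0 : k ≠ 0 := by omega
  have hpm : ¬ p ∣ m := by
    intro h
    have := Nat.dvd_gcd h hpk
    rw [hcop] at this
    exact hp.one_lt.ne' (Nat.dvd_one.1 this)
  have hs1 : ¬ (p : ℤ) ∣ (m : ℤ) := by exact_mod_cast hpm
  have hs2 : ¬ (p : ℤ) ∣ (-(m : ℤ)) := by rwa [dvd_neg]
  have hDpos := hKDT.pos k m n hm1 hmk
  have hD0 : DK k m n ≠ 0 := by omega
  have hdet := hKDT.det k m n N hm1 hmk hN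
  -- the gcd's
  have hGdvd : ((GK k m n (N : ℤ) : ℕ) : ℤ) * ((GK k m (n + 1) (N : ℤ) : ℕ) : ℤ) ∣ DK k m n := by
    rw [← hdet]
    have a1 : ((GK k m n (N : ℤ) : ℕ) : ℤ) ∣ PK k (m : ℤ) n N := Int.gcd_dvd_left _ _
    have a2 : ((GK k m n (N : ℤ) : ℕ) : ℤ) ∣ PK k (-(m : ℤ)) n N := Int.gcd_dvd_right _ _
    have a3 : ((GK k m (n + 1) (N : ℤ) : ℕ) : ℤ) ∣ PK k (m : ℤ) (n + 1) N := Int.gcd_dvd_left _ _
    have a4 : ((GK k m (n + 1) (N : ℤ) : ℕ) : ℤ) ∣ PK k (-(m : ℤ)) (n + 1) N :=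
      Int.gcd_dvd_right _ _
    apply dvd_sub
    · rw [mul_comm]
      exact mul_dvd_mul a3 a2
    · exact mul_dvd_mul a1 a4
  have hG0 : ((GK k m n (N : ℤ) : ℕ) : ℤ) ≠ 0 := by
    intro h0
    rw [h0, zero_mul, zero_dvd_iff] at hGdvd
    exact hD0 hGdvd
  have hG1 : ((GK k m (n + 1) (N : ℤ) : ℕ) : ℤ) ≠ 0 := by
    intro h0
    rw [h0, mul_zero, zero_dvd_iff] at hGdvd
    exact hD0 hGdvd
  have hsum : padicValNat p (GK k m n (N : ℤ)) + padicValNat p (GK k m (n + 1) (N : ℤ)) ≤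
      padicValInt p (DK k m n) := by
    rw [← padicValInt.of_nat, ← padicValInt.of_nat, ← padicValInt.mul hG0 hG1]
    have h1 := (padicValInt_dvd (p := p) (((GK k m n (N : ℤ) : ℕ) : ℤ) *
      ((GK k m (n + 1) (N : ℤ) : ℕ) : ℤ))).trans hGdvd
    rcases (padicValInt_dvd_iff _ _).1 h1 with h2 | h2
    · exact absurd h2 hD0
    · exact h2
  -- lower bound for the valuation of `G_(n+1)`
  have hlow : (n + 1) * padicValNat p k - padicValNat p (n + 1).factorial ≤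
      padicValNat p (GK k m (n + 1) (N : ℤ)) := by
    have h1 : (p : ℤ) ^ ((n + 1) * padicValNat p k - padicValNat p (n + 1).factorial) ∣
        ((GK k m (n + 1) (N : ℤ) : ℕ) : ℤ) :=
      Int.dvd_coe_gcd (pow_dvd_PK hKCZ hk0 hpk hs1 (n + 1) N)
        (pow_dvd_PK hKCZ hk0 hpk hs2 (n + 1) N)
    rcases (padicValInt_dvd_iff _ _).1 h1 with h2 | h2
    · exact absurd h2 hG1
    · rwa [padicValInt.of_nat] at h2
  -- the valuation of `D_n`
  obtain ⟨hc1, hv1⟩ := ck_val (p := p) hKCZ hk0 hpk hs1 n n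
  obtain ⟨hc2, hv2⟩ := ck_val (p := p) hKCZ hk0 hpk hs2 n n
  have hn1 : ((n : ℤ) + 1) ≠ 0 := by positivity
  have hmz : (m : ℤ) ≠ 0 := by
    have : m ≠ 0 := by omega
    exact_mod_cast this
  have hkz : (k : ℤ) ≠ 0 := by exact_mod_cast hk0
  have hmul := congrArg (padicValInt p) (hKDT.mul k m n hm1 hmk)
  rw [padicValInt.mul hD0 hn1,
    padicValInt.mul (mul_ne_zero (mul_ne_zero (mul_ne_zero two_ne_zero hmz) hkz) hc1) hc2,
    padicValInt.mul (mul_ne_zero (mul_ne_zero two_ne_zero hmz) hkz) hc1,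
    padicValInt.mul (mul_ne_zero two_ne_zero hmz) hkz,
    padicValInt.mul two_ne_zero hmz, padicValInt.eq_zero_of_not_dvd hs1, add_zero,
    padicValInt.of_nat, show ((n : ℤ) + 1) = ((n + 1 : ℕ) : ℤ) by push_cast; ring,
    padicValInt.of_nat] at hmul
  -- the valuation of `2`
  have h2 : padicValInt p 2 ≤ 1 := by
    rw [show (2 : ℤ) = ((2 : ℕ) : ℤ) by norm_num, padicValInt.of_nat]
    by_cases hp2 : p = 2
    · subst hp2
      rw [padicValNat.self (by norm_num)]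
    · have : ¬ p ∣ 2 := fun h => hp2 ((Nat.prime_dvd_prime_iff_eq hp Nat.prime_two).1 h)
      rw [padicValNat.eq_zero_of_not_dvd this]
      norm_num
  have hk1 : 1 ≤ padicValNat p k := one_le_padicValNat_of_dvd hk0 hpk
  have hfac : padicValNat p (n + 1).factorial = padicValNat p (n + 1) + padicValNat p n.factorial := by
    rw [Nat.factorial_succ, padicValNat.mul (by omega) n.factorial_ne_zero]
  have hsucc : (n + 1) * padicValNat p k = n * padicValNat p k + padicValNat p k := by ring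
  omega

end Pool.Agent.Helper17.SM
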