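import Pool.Agent.Helper73.SM.Goals

/-!
# Project SM (MP_c307ca_nt), packet PD
-/

set_option autoImplicit false

namespace Pool.Agent.Helper17.SM

open Finset Pool.Agent.Helper73.SM

theorem int_sum (hR : StmtRCI) (k N : ℕ) (hk : 1 ≤ k) (hN : 1 ≤ N) (n : ℕ) (a : ℤ) (s : ℝ)
    (hs : s = (a : ℝ) / k) :
    ∃ m : ℤ, (m : ℝ) = ((k : ℝ) ^ 2 * N) ^ n *
      ∑ j ∈ range (n + 1), Ring.choose s j * ((2 * n - j).choose n : ℝ) * (1 / (N : ℝ)) ^ j := by
  have hN0 : (N : ℝ) ≠ 0 := by positivity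
  choose f hf using fun j ↦ hR a k j hk
  refine ⟨∑ j ∈ range (n + 1), (k : ℤ) ^ (2 * (n - j)) * (N : ℤ) ^ (n - j) * f j *
    ((2 * n - j).choose n : ℤ), ?_⟩
  push_cast
  rw [Finset.mul_sum]
  refine Finset.sum_congr rfl fun j hj ↦ ?_
  have hjn : j ≤ n := Nat.lt_succ_iff.1 (Finset.mem_range.1 hj)
  obtain ⟨i, rfl⟩ := Nat.exists_eq_add_of_le hjn
  rw [← hf j, Nat.add_sub_cancel_left, hs, one_div, inv_pow]
  have e1 : ((k : ℝ) ^ 2 * N) ^ (j + i) = (k : ℝ) ^ (2 * i) * (k : ℝ) ^ (2 * j) * ((N : ℝ) ^ i *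
    (N : ℝ) ^ j) := by
    rw [mul_pow, ← pow_mul, ← pow_add, ← pow_add]
    congr 2 <;> ring
  rw [e1]
  field_simp

theorem goalPD (hRCI : StmtRCI) (hREM : StmtREM) (hNV : StmtNV) (hEXL : StmtEXL) (_hBIN : StmtBIN)
    (hIRR : StmtIRR) : StmtPD := by
  intro k hk
  have hk0 : (0 : ℝ) < k := by positivity
  have hk2 : (2 : ℝ) ≤ k := by exact_mod_cast hk
  set K : ℝ := 8 * (k : ℝ) ^ 2 with hK
  have hK2 : 32 ≤ K := by rw [hK]; nlinarith
  refine ⟨max 3 (4 * Real.log K), 256 * k ^ 4, le_trans (by norm_num) (le_max_left _ _), ?_,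
    fun N hN ↦ ?_⟩
  · have : 1 ≤ k ^ 4 := Nat.one_le_pow _ _ (by omega)
    omega
  have hNK : 4 * K ^ 2 ≤ N := by
    have : ((256 * k ^ 4 : ℕ) : ℝ) ≤ N := by exact_mod_cast hN
    push_cast at this
    rw [hK]
    nlinarith
  have hN1 : 1 ≤ N := by
    have : 1 ≤ k ^ 4 := Nat.one_le_pow _ _ (by omega)
    omega
  have hNr : (4096 : ℝ) ≤ N := by nlinarith
  have hN0 : (0 : ℝ) < N := by linarith
  have hx0 : (0 : ℝ) < 1 / N := by positivity
  have hx1 : (1 : ℝ) / N ≤ 1 / 2 := by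
    apply one_div_le_one_div_of_le <;> linarith
  have hν0 : (0 : ℝ) < 1 / k := by positivity
  have hν1 : (1 : ℝ) / k < 1 := by
    rw [div_lt_one hk0]; linarith
  set ξ : ℝ := (1 + 1 / (N : ℝ)) ^ (1 / (k : ℝ)) with hξ
  have hξ2 : |ξ| ≤ 2 := by
    have h0 : 0 ≤ ξ := by positivity
    rw [abs_of_nonneg h0]
    calc ξ ≤ (1 + 1 / (N : ℝ)) ^ (1 : ℝ) :=
          Real.rpow_le_rpow_of_exponent_le (by linarith) hν1.le
      _ ≤ 2 := by rw [Real.rpow_one]; linarith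
  refine ⟨hIRR k N hk hN1, hξ2, fun a b ha ↦ ?_⟩
  have hpos : (0 : ℝ) < (k : ℝ) ^ 2 * N := by positivity
  -- the integers
  have hq : ∀ n : ℕ, ∃ m : ℤ, (m : ℝ) = ((k : ℝ) ^ 2 * N) ^ n * PB (1 / k) n (1 / N) := fun n ↦
    int_sum hRCI k N (by omega) hN1 n ((n : ℤ) * k - 1) _ (by push_cast; field_simp)
  have hp : ∀ n : ℕ, ∃ m : ℤ, (m : ℝ) = ((k : ℝ) ^ 2 * N) ^ n * PA (1 / k) n (1 / N) := fun n ↦
    int_sum hRCI k N (by omega) hN1 n ((n : ℤ) * k + 1) _ (by push_cast; field_simp)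
  choose q hq using hq
  choose p hp using hp
  have hmain := hEXL ξ K N p q (by linarith) (by nlinarith) (fun n ↦ by
    obtain ⟨r1, r2, r3⟩ := hREM (1 / k) (1 / N) n hν0.le hν1 hx0 hx1
    have hpn : (0 : ℝ) < ((k : ℝ) ^ 2 * N) ^ n := pow_pos hpos n
    refine ⟨?_, ?_, ?_, ?_⟩
    · have : (0 : ℝ) < q n := by
        rw [hq]
        exact mul_pos hpn (by linarith)
      exact_mod_cast this
    · rw [hq]
      calc ((k : ℝ) ^ 2 * N) ^ n * PB (1 / k) n (1 / N) ≤ ((k : ℝ) ^ 2 * N) ^ n * 8 ^ n :=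
            mul_le_mul_of_nonneg_left r2 hpn.le
        _ = (K * N) ^ n := by rw [← mul_pow, hK]; ring
    · have e1 : (p n : ℝ) - ξ * q n = ((k : ℝ) ^ 2 * N) ^ n *
          (PA (1 / k) n (1 / N) - (1 + 1 / (N : ℝ)) ^ (1 / (k : ℝ)) * PB (1 / k) n (1 / N)) := by
        rw [hq, hp, hξ]; ring
      rw [e1, abs_mul, abs_of_pos hpn]
      calc ((k : ℝ) ^ 2 * N) ^ n * _ ≤ ((k : ℝ) ^ 2 * N) ^ n *
            (8 ^ n * (2 * (1 / (N : ℝ)) ^ (2 * n + 1))) := mul_le_mul_of_nonneg_left r3 hpn.le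
        _ = 2 / N * (K / N) ^ n := by
          have e3 : (K / N) ^ n = 8 ^ n * ((k : ℝ) ^ 2) ^ n / (N : ℝ) ^ n := by
            rw [hK, div_pow, mul_pow]
          have e4 : (1 / (N : ℝ)) ^ (2 * n + 1) = 1 / ((N : ℝ) ^ n * (N : ℝ) ^ n * N) := by
            rw [div_pow, one_pow, pow_succ, two_mul, pow_add]
          have hNn : (N : ℝ) ^ n ≠ 0 := (pow_pos hN0 n).ne'
          rw [e3, e4, mul_pow]
          field_simp
    · have r4 := hNV (1 / k) (1 / N) n hν0 hν1 hx0.ne'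
      have e2 : ((p n * q (n + 1) - p (n + 1) * q n : ℤ) : ℝ) =
          ((k : ℝ) ^ 2 * N) ^ n * ((k : ℝ) ^ 2 * N) ^ (n + 1) *
          (PA (1 / k) n (1 / N) * PB (1 / k) (n + 1) (1 / N) -
            PA (1 / k) (n + 1) (1 / N) * PB (1 / k) n (1 / N)) := by
        push_cast
        rw [hq, hp, hq, hp]; ring
      have : ((p n * q (n + 1) - p (n + 1) * q n : ℤ) : ℝ) ≠ 0 := by
        rw [e2]
        exact mul_ne_zero (mul_ne_zero hpn.ne' (pow_ne_zero _ hpos.ne')) r4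
      exact_mod_cast this) a b ha
  have ha1 : (1 : ℝ) ≤ |(a : ℝ)| := by
    have := Int.one_le_abs ha
    exact_mod_cast this
  have hlogN : 0 < Real.log N := Real.log_pos (by linarith)
  calc (N : ℝ) ^ (-(max 3 (4 * Real.log K))) ≤ (N : ℝ) ^ (-(3 : ℝ)) :=
        Real.rpow_le_rpow_of_exponent_le (by linarith) (neg_le_neg (le_max_left _ _))
    _ ≤ 1 / (2 * (K * N) ^ 2) := by
        rw [Real.rpow_neg hN0.le, ← one_div]
        apply one_div_le_one_div_of_le (by positivity)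
        have : (N : ℝ) ^ (3 : ℝ) = (N : ℝ) ^ 3 := by
          rw [← Real.rpow_natCast]; norm_num
        rw [this]
        nlinarith [pow_pos hN0 2]
    _ ≤ _ := hmain
    _ ≤ _ := by
        apply mul_le_mul_of_nonneg_left _ (abs_nonneg _)
        apply Real.rpow_le_rpow_of_exponent_le ha1
        have : 4 * Real.log K / Real.log N ≤ max 3 (4 * Real.log K) / Real.log N := by
          apply div_le_div_of_nonneg_right (le_max_right _ _) hlogN.le
        linarith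

end Pool.Agent.Helper17.SM
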