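import Pool.Agent.Helper52.SM.Goals

/-!
# SM-SEM: the pruned list computes the pruned run
-/

namespace Pool.Agent.Helper17.SM

open Pool.Agent.Helper52.SM
open Pool.Agent.Helper78
open scoped Classical

/-- The block of the leaf `a`. -/
def blk (act : PM.View → ℕ) (c : ℕ) (x : List Bool) (P : ℕ → PM.Mem → Bool) (n i : ℕ)
    (M : PM.Mem) (l : List (ℕ × Bool)) (a : List Bool) : List (List (ℕ × Bool) × Lab) :=
  if act (x, i, M, a) = 1 then [(l ++ lit act x i M a, Sum.inl false)]
  else if act (x, i, M, a) = 2 then [(l ++ lit act x i M a, Sum.inl true)]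
  else if act (x, i, M, a) = 3 ∧ PM.msize M + a.length ≤ PM.bd c x then
    (if P i (M ++ [(i, a)]) then
        pl act c x P n (i + 1) (M ++ [(i, a)]) (l ++ lit act x i M a)
      else [(l ++ lit act x i M a, Sum.inr (i, M ++ [(i, a)]))])
  else []

theorem pl_succ (act : PM.View → ℕ) (c : ℕ) (x : List Bool) (P : ℕ → PM.Mem → Bool) (n i : ℕ)
    (M : PM.Mem) (l : List (ℕ × Bool)) : pl act c x P (n + 1) i M l =
      (lvM act x i M (PM.bd c x)).flatMap (blk act c x P n i M l) ++
        pl act c x P n (i + 1) M l := rfl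

theorem pl_sub (act : PM.View → ℕ) (c : ℕ) (x : List Bool) (P : ℕ → PM.Mem → Bool) :
    ∀ (n i : ℕ) (M : PM.Mem) (l : List (ℕ × Bool)), ∀ e ∈ pl act c x P n i M l,
      ∀ p ∈ l, p ∈ e.1 := by
  intro n
  induction n with
  | zero =>
    intro i M l e he p hp
    rw [show pl act c x P 0 i M l = [(l, Sum.inl false)] from rfl, List.mem_singleton] at he
    rw [he]
    exact hp
  | succ n ih =>
    intro i M l e he p hp
    rw [pl_succ, List.mem_append] at he
    rcases he with he | he
    · rw [List.mem_flatMap] at he
      obtain ⟨a, -, he⟩ := he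
      unfold blk at he
      split_ifs at he with h1 h2 h3 h4
      · rw [List.mem_singleton] at he
        rw [he]
        exact List.mem_append_left _ hp
      · rw [List.mem_singleton] at he
        rw [he]
        exact List.mem_append_left _ hp
      · exact ih _ _ _ e he p (List.mem_append_left _ hp)
      · rw [List.mem_singleton] at he
        rw [he]
        exact List.mem_append_left _ hp
      · exact absurd he List.not_mem_nil
    · exact ih _ _ _ e he p hp

theorem blk_sub (act : PM.View → ℕ) (c : ℕ) (x : List Bool) (P : ℕ → PM.Mem → Bool) (n i : ℕ)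
    (M : PM.Mem) (l : List (ℕ × Bool)) (a : List Bool) : ∀ e ∈ blk act c x P n i M l a,
      ∀ p ∈ lit act x i M a, p ∈ e.1 := by
  intro e he p hp
  unfold blk at he
  split_ifs at he with h1 h2 h3 h4
  · rw [List.mem_singleton] at he
    rw [he]
    exact List.mem_append_right _ hp
  · rw [List.mem_singleton] at he
    rw [he]
    exact List.mem_append_right _ hp
  · exact pl_sub act c x P _ _ _ _ e he p (List.mem_append_right _ hp)
  · rw [List.mem_singleton] at he
    rw [he]
    exact List.mem_append_right _ hp
  · exact absurd he List.not_mem_nil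

section Evg

variable {β : Type} (d : β) (b : ℕ → Bool)

theorem evg_cons_pos (e : List (ℕ × Bool) × β) (F : List (List (ℕ × Bool) × β))
    (h : ∀ p ∈ e.1, b p.1 = p.2) : evg d b (e :: F) = e.2 := by
  rw [evg, if_pos h]

theorem evg_cons_neg (e : List (ℕ × Bool) × β) (F : List (List (ℕ × Bool) × β))
    (h : ¬ ∀ p ∈ e.1, b p.1 = p.2) : evg d b (e :: F) = evg d b F := by
  rw [evg, if_neg h]

theorem evg_append_none (F G : List (List (ℕ × Bool) × β))
    (h : ∀ e ∈ F, ¬ ∀ p ∈ e.1, b p.1 = p.2) : evg d b (F ++ G) = evg d b G := by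
  induction F with
  | nil => rfl
  | cons e F ih =>
    rw [List.cons_append, evg_cons_neg d b e _ (h e List.mem_cons_self)]
    exact ih fun e he => h e (List.mem_cons_of_mem _ he)

theorem evg_append_some (F G : List (List (ℕ × Bool) × β))
    (h : ∃ e ∈ F, ∀ p ∈ e.1, b p.1 = p.2) : evg d b (F ++ G) = evg d b F := by
  induction F with
  | nil =>
    obtain ⟨e, he, -⟩ := h
    exact absurd he List.not_mem_nil
  | cons e F ih =>
    by_cases h1 : ∀ p ∈ e.1, b p.1 = p.2
    · rw [List.cons_append, evg_cons_pos d b e _ h1, evg_cons_pos d b e _ h1]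
    · rw [List.cons_append, evg_cons_neg d b e _ h1, evg_cons_neg d b e _ h1]
      refine ih ?_
      obtain ⟨e', he', h2⟩ := h
      rcases List.mem_cons.mp he' with h3 | h3
      · rw [h3] at h2
        exact absurd h2 h1
      · exact ⟨e', h3, h2⟩

theorem evg_flatMap {α : Type} (L : List α) (B : α → List (List (ℕ × Bool) × β)) (a₀ : α)
    (ha : a₀ ∈ L) (hn : ∀ a ∈ L, a ≠ a₀ → ∀ e ∈ B a, ¬ ∀ p ∈ e.1, b p.1 = p.2)
    (hs : ∃ e ∈ B a₀, ∀ p ∈ e.1, b p.1 = p.2) : evg d b (L.flatMap B) = evg d b (B a₀) := by
  induction L with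
  | nil => exact absurd ha List.not_mem_nil
  | cons a L ih =>
    rw [List.flatMap_cons]
    by_cases h : a = a₀
    · rw [h]
      exact evg_append_some d b _ _ hs
    · rw [evg_append_none d b _ _ (hn a List.mem_cons_self h)]
      refine ih ?_ fun a' ha' => hn a' (List.mem_cons_of_mem _ ha')
      rcases List.mem_cons.mp ha with h1 | h1
      · exact absurd h1.symm h
      · exact h1

end Evg

theorem lit_length (act : PM.View → ℕ) (x : List Bool) (i : ℕ) (M : PM.Mem) (a : List Bool) :
    (lit act x i M a).length = a.length := by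
  unfold lit
  rw [List.length_map, List.length_range]

theorem msize_append (M : PM.Mem) (i : ℕ) (a : List Bool) :
    PM.msize (M ++ [(i, a)]) = PM.msize M + a.length := by
  unfold PM.msize
  rw [List.map_append, List.sum_append]
  simp

theorem sem1 (hL : LvmStmt) (act : PM.View → ℕ) (c : ℕ) (x : List Bool)
    (P : ℕ → PM.Mem → Bool) (b : ℕ → Bool) : ∀ (n i : ℕ) (M : PM.Mem) (l : List (ℕ × Bool)),
    (∀ p ∈ l, b p.1 = p.2) →
      evg (Sum.inl false) b (pl act c x P n i M l) = runP act c x P b n i M ∧
      ∃ e ∈ pl act c x P n i M l, ∀ p ∈ e.1, b p.1 = p.2 := by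
  intro n
  induction n with
  | zero =>
    intro i M l hl
    refine ⟨?_, (l, Sum.inl false), ?_, hl⟩
    · rw [show pl act c x P 0 i M l = [(l, Sum.inl false)] from rfl,
        evg_cons_pos _ b _ _ hl]
      rfl
    · rw [show pl act c x P 0 i M l = [(l, Sum.inl false)] from rfl]
      exact List.mem_cons_self
  | succ n ih =>
    intro i M l hl
    obtain ⟨-, -, -, hL4⟩ := hL act x i M (PM.bd c x)
    obtain ⟨hmem, hiff⟩ := hL4 b
    set a₀ := PM.bits act x b i M (PM.bd c x) with ha₀
    have hlit : ∀ p ∈ lit act x i M a₀, b p.1 = p.2 := (hiff a₀ hmem).2 rfl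
    have hll : ∀ p ∈ l ++ lit act x i M a₀, b p.1 = p.2 := by
      intro p hp
      rcases List.mem_append.mp hp with h | h
      · exact hl p h
      · exact hlit p h
    have hn : ∀ a ∈ lvM act x i M (PM.bd c x), a ≠ a₀ →
        ∀ e ∈ blk act c x P n i M l a, ¬ ∀ p ∈ e.1, b p.1 = p.2 := by
      intro a ha hne e he hs
      exact hne ((hiff a ha).1 fun p hp => hs p (blk_sub act c x P n i M l a e he p hp))
    have hrun : runP act c x P b (n + 1) i M =
        if act (x, i, M, a₀) = 1 then Sum.inl false
        else if act (x, i, M, a₀) = 2 then Sum.inl true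
        else if act (x, i, M, a₀) = 3 ∧ PM.msize M + a₀.length ≤ PM.bd c x then
          (if P i (M ++ [(i, a₀)]) then runP act c x P b n (i + 1) (M ++ [(i, a₀)])
            else Sum.inr (i, M ++ [(i, a₀)]))
        else runP act c x P b n (i + 1) M := rfl
    -- if the block of `a₀` has the right value and a satisfied term, we are done
    have key : ∀ v : Lab, evg (Sum.inl false) b (blk act c x P n i M l a₀) = v →
        (∃ e ∈ blk act c x P n i M l a₀, ∀ p ∈ e.1, b p.1 = p.2) →
        evg (Sum.inl false) b (pl act c x P (n + 1) i M l) = v ∧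
          ∃ e ∈ pl act c x P (n + 1) i M l, ∀ p ∈ e.1, b p.1 = p.2 := by
      intro v hv hs
      have hs' : ∃ e ∈ (lvM act x i M (PM.bd c x)).flatMap (blk act c x P n i M l),
          ∀ p ∈ e.1, b p.1 = p.2 := by
        obtain ⟨e, he, h⟩ := hs
        exact ⟨e, List.mem_flatMap.2 ⟨a₀, hmem, he⟩, h⟩
      rw [pl_succ]
      refine ⟨?_, ?_⟩
      · rw [evg_append_some _ b _ _ hs', evg_flatMap _ b _ _ a₀ hmem hn hs]
        exact hv
      · obtain ⟨e, he, h⟩ := hs'
        exact ⟨e, List.mem_append_left _ he, h⟩
    rw [hrun]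
    by_cases h1 : act (x, i, M, a₀) = 1
    · have hb : blk act c x P n i M l a₀ = [(l ++ lit act x i M a₀, Sum.inl false)] := by
        unfold blk
        rw [if_pos h1]
      rw [if_pos h1]
      refine key _ ?_ ?_
      · rw [hb, evg_cons_pos _ b _ _ hll]
      · rw [hb]
        exact ⟨_, List.mem_cons_self, hll⟩
    by_cases h2 : act (x, i, M, a₀) = 2
    · have hb : blk act c x P n i M l a₀ = [(l ++ lit act x i M a₀, Sum.inl true)] := by
        unfold blk
        rw [if_neg h1, if_pos h2]
      rw [if_neg h1, if_pos h2]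
      refine key _ ?_ ?_
      · rw [hb, evg_cons_pos _ b _ _ hll]
      · rw [hb]
        exact ⟨_, List.mem_cons_self, hll⟩
    by_cases h3 : act (x, i, M, a₀) = 3 ∧ PM.msize M + a₀.length ≤ PM.bd c x
    · by_cases h4 : P i (M ++ [(i, a₀)]) = true
      · have hb : blk act c x P n i M l a₀ =
            pl act c x P n (i + 1) (M ++ [(i, a₀)]) (l ++ lit act x i M a₀) := by
          unfold blk
          rw [if_neg h1, if_neg h2, if_pos h3, if_pos h4]
        rw [if_neg h1, if_neg h2, if_pos h3, if_pos h4]
        obtain ⟨j1, j2⟩ := ih (i + 1) (M ++ [(i, a₀)]) (l ++ lit act x i M a₀) hll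
        refine key _ ?_ ?_
        · rw [hb]
          exact j1
        · rw [hb]
          exact j2
      · have hb : blk act c x P n i M l a₀ =
            [(l ++ lit act x i M a₀, Sum.inr (i, M ++ [(i, a₀)]))] := by
          unfold blk
          rw [if_neg h1, if_neg h2, if_pos h3, if_neg h4]
        rw [if_neg h1, if_neg h2, if_pos h3, if_neg h4]
        refine key _ ?_ ?_
        · rw [hb, evg_cons_pos _ b _ _ hll]
        · rw [hb]
          exact ⟨_, List.mem_cons_self, hll⟩
    · have hb : blk act c x P n i M l a₀ = [] := by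
        unfold blk
        rw [if_neg h1, if_neg h2, if_neg h3]
      rw [if_neg h1, if_neg h2, if_neg h3, pl_succ]
      obtain ⟨j1, j2⟩ := ih (i + 1) M l hl
      have hnone : ∀ e ∈ (lvM act x i M (PM.bd c x)).flatMap (blk act c x P n i M l),
          ¬ ∀ p ∈ e.1, b p.1 = p.2 := by
        intro e he
        obtain ⟨a, ha, he⟩ := List.mem_flatMap.1 he
        by_cases hne : a = a₀
        · rw [hne, hb] at he
          exact absurd he List.not_mem_nil
        · exact hn a ha hne e he
      refine ⟨?_, ?_⟩
      · rw [evg_append_none _ b _ _ hnone]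
        exact j1
      · obtain ⟨e, he, h⟩ := j2
        exact ⟨e, List.mem_append_right _ he, h⟩

theorem sem2 (act : PM.View → ℕ) (c : ℕ) (x : List Bool) (P : ℕ → PM.Mem → Bool)
    (b : ℕ → Bool) (v : Bool) : ∀ (n i : ℕ) (M : PM.Mem),
    runP act c x P b n i M = Sum.inl v → PM.run act c x b n i M = v := by
  intro n
  induction n with
  | zero =>
    intro i M h
    rw [show runP act c x P b 0 i M = Sum.inl false from rfl] at h
    exact Sum.inl.inj h
  | succ n ih =>
    intro i M h
    rw [runP] at h
    rw [PM.run]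
    split_ifs at h ⊢ with h1 h2 h3 h4
    · exact Sum.inl.inj h
    · exact Sum.inl.inj h
    · exact ih _ _ h
    · exact ih _ _ h

theorem sem3 (hL : LvmStmt) (act : PM.View → ℕ) (c : ℕ) (x : List Bool)
    (P : ℕ → PM.Mem → Bool) : ∀ (n i : ℕ) (M : PM.Mem) (l : List (ℕ × Bool)),
    l.length ≤ PM.msize M → PM.msize M ≤ PM.bd c x →
      ∀ e ∈ pl act c x P n i M l, e.1.length ≤ 2 * PM.bd c x := by
  intro n
  induction n with
  | zero =>
    intro i M l h1 h2 e he
    rw [show pl act c x P 0 i M l = [(l, Sum.inl false)] from rfl, List.mem_singleton] at he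
    rw [he]
    simp only
    omega
  | succ n ih =>
    intro i M l h1 h2 e he
    rw [pl_succ, List.mem_append] at he
    rcases he with he | he
    · rw [List.mem_flatMap] at he
      obtain ⟨a, ha, he⟩ := he
      have hlen : a.length ≤ PM.bd c x := (hL act x i M (PM.bd c x)).2.2.1 a ha
      have hll : (l ++ lit act x i M a).length = l.length + a.length := by
        rw [List.length_append, lit_length]
      unfold blk at he
      split_ifs at he with g1 g2 g3 g4
      · rw [List.mem_singleton] at he
        rw [he]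
        simp only
        omega
      · rw [List.mem_singleton] at he
        rw [he]
        simp only
        omega
      · refine ih _ _ _ ?_ ?_ e he
        · rw [msize_append]
          omega
        · rw [msize_append]
          exact g3.2
      · rw [List.mem_singleton] at he
        rw [he]
        simp only
        omega
      · exact absurd he List.not_mem_nil
    · exact ih _ _ _ h1 h2 e he

theorem sem (hL : LvmStmt) : SemStmt := by
  intro act c x P n i M l
  exact ⟨fun b hb => sem1 hL act c x P b n i M l hb,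
    fun b v h => sem2 act c x P b v n i M h,
    fun h1 h2 => sem3 hL act c x P n i M l h1 h2⟩

end Pool.Agent.Helper17.SM
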